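import Pool.Agent.X125.CP.Fam

/-!
Common parts of measures which are invariant under different multiplications.
-/

set_option autoImplicit false

open MeasureTheory

namespace Pool.Agent.Results.MP_96e181_an.CommonParts

/-- **Common parts are carried by jointly invariant measures.**
(1) Let `μ i` be a probability measure on the circle invariant under `x ↦ n i x`, for finitely many
`i` (different measures for different multiplications). There is one probability measure `M`
invariant under all the `x ↦ n i x` such that every measure which is absolutely continuous with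
respect to all the `μ i` is absolutely continuous with respect to `M`.
(2) Let `ν` be a probability measure invariant and ergodic under `x ↦ q x` and `μ` a probability
measure invariant under `x ↦ p x`. If they are not mutually singular then `ν` itself is invariant
under `x ↦ p ^ r x` for some `r ≥ 1`, with `r m ≤ 1`, where `m` is the mass of the part of `μ`
which is absolutely continuous with respect to `ν`.
(3) For all `n i ≥ 2` (`i` in a finite set): Lebesgue measure is the only atomless probability
measure invariant under all the `x ↦ n i x` (for two multiplicatively independent numbers this is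
Furstenberg's conjecture for them) if and only if atomless probability measures `μ i`, each
invariant under its own multiplication `x ↦ n i x` and singular with respect to Lebesgue measure,
never have a common part. -/
theorem result :
    (∀ (k : ℕ) (n : Fin (k + 1) → ℕ) (μ : Fin (k + 1) → Measure UnitAddCircle),
      (∀ i, IsProbabilityMeasure (μ i)) →
      (∀ i, MeasurePreserving (fun x : UnitAddCircle => n i • x) (μ i) (μ i)) →
      ∃ M : Measure UnitAddCircle, IsProbabilityMeasure M ∧
        (∀ i, MeasurePreserving (fun x : UnitAddCircle => n i • x) M M) ∧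
        ∀ θ : Measure UnitAddCircle, (∀ i, θ ≪ μ i) → θ ≪ M) ∧
    (∀ (p q : ℕ) (μ ν : Measure UnitAddCircle), IsProbabilityMeasure μ → IsProbabilityMeasure ν →
      MeasurePreserving (fun x : UnitAddCircle => p • x) μ μ →
      Ergodic (fun x : UnitAddCircle => q • x) ν → ¬ μ ⟂ₘ ν →
      ∃ r : ℕ, 1 ≤ r ∧ (r : ENNReal) * (ν.withDensity (μ.rnDeriv ν)) Set.univ ≤ 1 ∧
        MeasurePreserving (fun x : UnitAddCircle => p ^ r • x) ν ν) ∧
    (∀ (k : ℕ) (n : Fin (k + 1) → ℕ), (∀ i, 2 ≤ n i) →
      ((∀ μ : Measure UnitAddCircle, IsProbabilityMeasure μ → (∀ x, μ {x} = 0) →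
          (∀ i, MeasurePreserving (fun x : UnitAddCircle => n i • x) μ μ) → μ = volume) ↔
        (∀ μ : Fin (k + 1) → Measure UnitAddCircle, (∀ i, IsProbabilityMeasure (μ i)) →
          (∀ i x, μ i {x} = 0) →
          (∀ i, MeasurePreserving (fun x : UnitAddCircle => n i • x) (μ i) (μ i)) →
          (∀ i, μ i ⟂ₘ volume) → ∀ θ : Measure UnitAddCircle, (∀ i, θ ≪ μ i) → θ = 0))) := by
  refine ⟨fun k n μ h1 h2 => Pool.Agent.X125.CP.family k n μ h1 h2, ?_,
    fun k n hn => Pool.Agent.X125.CP.equivalence k n hn⟩
  intro p q μ ν hμ hν hp hq hns
  obtain ⟨r, h1, h2, h3⟩ := Pool.Agent.X125.CP.dichotomy hp (fun x => smul_comm p q x) hq hns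
  refine ⟨r, h1, h2, ?_⟩
  have e : (fun x : UnitAddCircle => p • x)^[r] = fun x : UnitAddCircle => p ^ r • x := by
    clear h1 h2 h3
    induction r with
    | zero => funext x; simp
    | succ r ih =>
      funext x
      rw [Function.iterate_succ_apply', ih, pow_succ', mul_smul]
  rwa [e] at h3

end Pool.Agent.Results.MP_96e181_an.CommonParts
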