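import Pool.Agent.X125.CP.Diff

/-!
Measures of polynomial complexity invariant under a multiplication: only finitely many
multiplicatively independent coincidences.
-/

set_option autoImplicit false

open MeasureTheory Filter Topology Metric

namespace Pool.Agent.Results.MP_96e181_an.FiniteRank

/-- The numbers `q i` are multiplicatively independent: all the products
`∏ (q i) ^ (a i)` are different. -/
def MulIndep {k : ℕ} (q : Fin k → ℕ) : Prop :=
  ∀ a b : Fin k → ℕ, ∏ i, q i ^ a i = ∏ i, q i ^ b i → a = b

/-- `μ` is a probability measure on the circle, invariant under `x ↦ n x`. -/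
def Invariant (n : ℕ) (μ : Measure UnitAddCircle) : Prop :=
  IsProbabilityMeasure μ ∧ MeasurePreserving (fun x : UnitAddCircle => n • x) μ μ

/-- **Coincidences of measures invariant under different multiplications.**
(1) Let `q 0, …, q k ≥ 2` be multiplicatively independent and `μ i` invariant under `x ↦ q i x`
(different measures). At almost every point `x` of the common part of the `μ i` (that is, almost
everywhere for each atomless `θ` absolutely continuous with respect to all `μ i`) there are `C` and
arbitrarily small `r` with `μ i (B(x, r)) ≤ C |log r| ^ (-(k + 1))` for all `i` at once.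
(2) If moreover `|log r| ^ (k + 1) μ 0 (B(x, r)) → ∞` as `r → 0` for `μ 0`-almost every `x`, then
there is no such `θ ≠ 0`; for `k = 1`: `μ 0` is singular with respect to every atomless measure
invariant under `x ↦ q 1 x`.
(3) **Finite rank.** Let `μ` be an atomless measure invariant and ergodic under `x ↦ p x` with
`μ (B(x, r)) ≥ c |log r| ^ (-A)` for some `c = c(x) > 0` and all small `r`, for `x` in a set of
positive measure. If `q 0, …, q (k - 1) ≥ 2` are multiplicatively independent and for each `i` the
measure `μ` is not mutually singular with some measure invariant under `x ↦ q i x`, then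
`k ≤ A`. -/
theorem result :
    (∀ (k : ℕ) (q : Fin (k + 1) → ℕ), (∀ i, 2 ≤ q i) → MulIndep q →
      ∀ μ : Fin (k + 1) → Measure UnitAddCircle, (∀ i, Invariant (q i) (μ i)) →
      ∀ θ : Measure UnitAddCircle, (∀ x, θ {x} = 0) → (∀ i, θ ≪ μ i) →
        (∀ᵐ x ∂θ, ∃ C : ℝ, ∃ᶠ r in 𝓝[>] (0 : ℝ), ∀ i,
          (μ i).real (closedBall x r) ≤ C / |Real.log r| ^ (k + 1)) ∧
        ((∀ᵐ x ∂(μ 0), Tendsto (fun r : ℝ => |Real.log r| ^ (k + 1) *
            (μ 0).real (closedBall x r)) (𝓝[>] 0) atTop) → θ = 0)) ∧
    (∀ (p q : ℕ), 2 ≤ p → 2 ≤ q → Irrational (Real.log p / Real.log q) →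
      ∀ μ ν : Measure UnitAddCircle, Invariant p μ → Invariant q ν → (∀ x, ν {x} = 0) →
        (∀ᵐ x ∂μ, Tendsto (fun r : ℝ => |Real.log r| ^ 2 * μ.real (closedBall x r))
          (𝓝[>] 0) atTop) → μ ⟂ₘ ν) ∧
    (∀ (p : ℕ) (μ : Measure UnitAddCircle), IsProbabilityMeasure μ →
      Ergodic (fun x : UnitAddCircle => p • x) μ → (∀ x, μ {x} = 0) → ∀ A : ℝ, 0 ≤ A →
      (∃ᶠ x in ae μ, ∃ c : ℝ, 0 < c ∧ ∀ᶠ r in 𝓝[>] (0 : ℝ),
        c * |Real.log r| ^ (-A) ≤ μ.real (closedBall x r)) →
      ∀ (k : ℕ) (q : Fin k → ℕ), (∀ i, 2 ≤ q i) → MulIndep q →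
        (∀ i, ∃ ν : Measure UnitAddCircle, Invariant (q i) ν ∧ ¬ ν ⟂ₘ μ) → (k : ℝ) ≤ A) := by
  refine ⟨fun k q hq hMI μ hμ θ hat hθ => ⟨?_, fun h3 => ?_⟩, ?_,
    fun p μ hμ herg hat A hA hlow k q hq hMI hν => ?_⟩
  · exact Pool.Agent.X125.CP.common_small q hq hMI μ (fun i => (hμ i).1) (fun i => (hμ i).2) hat hθ
  · exact Pool.Agent.X125.CP.criterion q hq hMI μ (fun i => (hμ i).1) (fun i => (hμ i).2) h3 hat hθ
  · intro p q hp hq hirr μ ν hμ hν hat hlow
    have := hμ.1
    have := hν.1
    have hd := Measure.haveLebesgueDecomposition_of_sigmaFinite μ ν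
    have hMI : Pool.Agent.X125.CP.MI ![p, q] := by
      intro a b hab
      simp only [Fin.prod_univ_two, Matrix.cons_val_zero, Matrix.cons_val_one] at hab
      have h := Pool.Agent.X125.CP.inj_pq hp hq hirr hab
      funext i
      fin_cases i
      · exact h.1
      · exact h.2
    have h0 := Pool.Agent.X125.CP.criterion (k := 1) ![p, q] (by
        intro i
        fin_cases i
        · exact hp
        · exact hq) hMI ![μ, ν] (by
        intro i
        fin_cases i
        · exact hμ.1
        · exact hν.1) (by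
        intro i
        fin_cases i
        · exact hμ.2
        · exact hν.2) hlow (θ := Pool.Agent.X125.CP.W μ ν) (fun x =>
          Pool.Agent.X125.CP.W_ac μ ν (hat x)) (by
        intro i
        fin_cases i
        · exact Measure.absolutelyContinuous_of_le (Pool.Agent.X125.CP.W_le μ ν)
        · exact Pool.Agent.X125.CP.W_ac μ ν)
    have e := Measure.rnDeriv_add_singularPart μ ν
    unfold Pool.Agent.X125.CP.W at h0
    rw [h0, zero_add] at e
    rw [← e]
    exact Measure.mutuallySingular_singularPart μ ν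
  · exact Pool.Agent.X125.CP.finite_rank herg hat hA hlow q hq hMI fun i => by
      obtain ⟨ν, h1, h2⟩ := hν i
      exact ⟨ν, h1.1, h1.2, h2⟩

end Pool.Agent.Results.MP_96e181_an.FiniteRank
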