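import Mathlib
import Pool.Agent.X125.SO.Equiv

set_option autoImplicit false

open MeasureTheory Set
open scoped ENNReal

namespace Pool.Agent.Results.MP_96e181_an.MixedDifference

/-- `μ` is invariant under `x ↦ n x` on `R/Z`. -/
def Invariant (n : ℕ) (μ : Measure UnitAddCircle) : Prop :=
  MeasurePreserving (fun x : UnitAddCircle => n • x) μ μ

/-- The image of `μ` under `x ↦ n x`. -/
noncomputable def image (n : ℕ) (μ : Measure UnitAddCircle) : Measure UnitAddCircle :=
  μ.map fun x : UnitAddCircle => n • x

/-- The mixed difference `(1 - T_p)(1 - T_q) μ` vanishes. -/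
def MixedDifferenceVanishes (p q : ℕ) (μ : Measure UnitAddCircle) : Prop :=
  image p μ + image q μ = μ + image (p * q) μ

/-- Furstenberg's conjecture for the pair `p, q` (atomless form). -/
def Furstenberg (p q : ℕ) : Prop :=
  ∀ μ : Measure UnitAddCircle, IsProbabilityMeasure μ → (∀ x, μ {x} = 0) →
    Invariant p μ → Invariant q μ → μ = volume

/-- **Probability measures with vanishing mixed difference.**
(1) For all `p, q` and every Borel probability measure `μ` on `R/Z`: `(1 - T_p)(1 - T_q) μ = 0` if
and only if `μ = α + β` with positive measures `α`, invariant under `x ↦ p x`, and `β`, invariant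
under `x ↦ q x`.
(2) For `p, q ≥ 2` Furstenberg's conjecture for `p, q` holds if and only if every atomless
probability measure `μ` with `(1 - T_p)(1 - T_q) μ = 0` can be written in exactly one way as
`c λ + α + β` with `λ` Lebesgue measure, `c ≥ 0`, and positive measures `α, β` singular to `λ`,
`α` invariant under `x ↦ p x` and `β` under `x ↦ q x`.
(3) The analogue of (1) for three multipliers fails: for `(71, 64, 76)` there is a probability
measure `μ` with `(1 - T_71)(1 - T_64)(1 - T_76) μ = 0` which is not the sum of three positive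
measures invariant under `x ↦ 71 x`, `x ↦ 64 x` and `x ↦ 76 x`. -/
theorem result :
    (∀ (p q : ℕ) (μ : Measure UnitAddCircle), IsProbabilityMeasure μ →
      (MixedDifferenceVanishes p q μ ↔
        ∃ α β : Measure UnitAddCircle, Invariant p α ∧ Invariant q β ∧ μ = α + β)) ∧
    (∀ p q : ℕ, 2 ≤ p → 2 ≤ q →
      (Furstenberg p q ↔
        ∀ μ : Measure UnitAddCircle, IsProbabilityMeasure μ → (∀ x, μ {x} = 0) →
          MixedDifferenceVanishes p q μ →
          ∃! d : ℝ≥0∞ × Measure UnitAddCircle × Measure UnitAddCircle,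
            d.2.1 ⟂ₘ volume ∧ d.2.2 ⟂ₘ volume ∧ Invariant p d.2.1 ∧ Invariant q d.2.2 ∧
              μ = d.1 • volume + d.2.1 + d.2.2)) ∧
    (∃ μ : Measure UnitAddCircle, IsProbabilityMeasure μ ∧
      μ + image (71 * 64) μ + image (71 * 76) μ + image (64 * 76) μ =
        image 71 μ + image 64 μ + image 76 μ + image (71 * 64 * 76) μ ∧
      ∀ α β γ : Measure UnitAddCircle, Invariant 71 α → Invariant 64 β → Invariant 76 γ →
        μ ≠ α + β + γ) := by
  refine ⟨fun p q μ hμ => ⟨fun h => Pool.Agent.X125.SO.decomp h, ?_⟩, fun p q hp hq =>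
    Pool.Agent.X125.SO.fu_iff hp hq, Pool.Agent.X125.SO.three⟩
  rintro ⟨α, β, h1, h2, rfl⟩
  exact Pool.Agent.X125.SO.rel_of_sum h1 h2

end Pool.Agent.Results.MP_96e181_an.MixedDifference
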