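import Pool.Agent.X125.RF.Main

/-!
Joinings of `×p, ×q` invariant measures with rotations of compact abelian groups.
-/

set_option autoImplicit false

open Set Filter Topology MeasureTheory

namespace Pool.Agent.Results.MP_96e181_an.RotationJoinings

/-- **Joinings with rotations have full support.** Let `p, q ≥ 2` be multiplicatively independent,
`K` a compact abelian group and `α, β` elements such that the `i α + j β`, `i, j ≥ 0`, are dense.
(1) A closed subset of `(R/Z) × K` mapped into itself by `(x, k) ↦ (p x, k + α)` and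
`(x, k) ↦ (q x, k + β)` is everything or has a finite projection to `R/Z`.
(2) A probability measure on `(R/Z) × K` invariant under both maps, whose projection to `R/Z` is
atomless, has full support.
(3) Let `μ` be an atomless probability measure on `R/Z` invariant under `×p` and `×q` and `g` a
measurable map to `K` (for instance an eigenfunction) with `g (p x) = g x + α` and
`g (q x) = g x + β` almost everywhere. Then `g` takes values in every nonempty open subset of `K`
with positive probability on every nonempty open subset of `R/Z`.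
(4) Let `κ` be the invariant probability measure of `K` and `φ` a measurable map from `K` to `R/Z`
with `φ (k + α) = p φ k`, `φ (k + β) = q φ k` almost everywhere. If the (jointly invariant) image of
`κ` is atomless then `φ` takes values in every nonempty open subset of `R/Z` with positive
probability on every nonempty open subset of `K`; every map which is equal to `φ` almost everywhere
is discontinuous at every point. -/
theorem result (p q : ℕ) (hp : 2 ≤ p) (hq : 2 ≤ q) (hpq : Irrational (Real.log p / Real.log q))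
    (K : Type) [AddCommGroup K] [TopologicalSpace K] [IsTopologicalAddGroup K] [CompactSpace K]
    (α β : K) (hD : Dense (range fun u : ℕ × ℕ => u.1 • α + u.2 • β)) :
    (∀ Z : Set (UnitAddCircle × K), IsClosed Z → (∀ z ∈ Z, (p • z.1, z.2 + α) ∈ Z) →
      (∀ z ∈ Z, (q • z.1, z.2 + β) ∈ Z) → Z = univ ∨ (Prod.fst '' Z).Finite) ∧
    ∀ [SecondCountableTopology K] [MeasurableSpace K] [BorelSpace K],
      (∀ P : Measure (UnitAddCircle × K), IsProbabilityMeasure P →
        MeasurePreserving (fun z : UnitAddCircle × K => (p • z.1, z.2 + α)) P P →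
        MeasurePreserving (fun z : UnitAddCircle × K => (q • z.1, z.2 + β)) P P →
        (∀ x : UnitAddCircle, P (Prod.fst ⁻¹' {x}) = 0) →
        ∀ (I : Set UnitAddCircle) (V : Set K), IsOpen I → I.Nonempty → IsOpen V → V.Nonempty →
          0 < P (I ×ˢ V)) ∧
      (∀ μ : Measure UnitAddCircle, IsProbabilityMeasure μ → (∀ x, μ {x} = 0) →
        MeasurePreserving (fun x : UnitAddCircle => p • x) μ μ →
        MeasurePreserving (fun x : UnitAddCircle => q • x) μ μ →
        ∀ g : UnitAddCircle → K, Measurable g → (∀ᵐ x ∂μ, g (p • x) = g x + α) →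
          (∀ᵐ x ∂μ, g (q • x) = g x + β) →
          ∀ (I : Set UnitAddCircle) (V : Set K), IsOpen I → I.Nonempty → IsOpen V → V.Nonempty →
            0 < μ (I ∩ g ⁻¹' V)) ∧
      (∀ κ : Measure K, IsProbabilityMeasure κ → MeasurePreserving (fun k : K => k + α) κ κ →
        MeasurePreserving (fun k : K => k + β) κ κ →
        ∀ φ : K → UnitAddCircle, Measurable φ → (∀ᵐ k ∂κ, φ (k + α) = p • φ k) →
          (∀ᵐ k ∂κ, φ (k + β) = q • φ k) → (∀ x, κ (φ ⁻¹' {x}) = 0) →
          (∀ (I : Set UnitAddCircle) (V : Set K), IsOpen I → I.Nonempty → IsOpen V → V.Nonempty →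
            0 < κ (φ ⁻¹' I ∩ V)) ∧
          ∀ ψ : K → UnitAddCircle, ψ =ᵐ[κ] φ → ∀ k : K, ¬ ContinuousAt ψ k) := by
  refine ⟨fun Z h1 h2 h3 => Pool.Agent.X125.RF.closed_inv hp hq hpq hD h1 h2 h3, ?_⟩
  intro _ _ _
  refine ⟨fun P hP h1 h2 h3 I V hI hIn hV hVn =>
      Pool.Agent.X125.RF.joining hp hq hpq hD h1 h2 h3 hI hIn hV hVn,
    fun μ hμ hat h1 h2 g hg h3 h4 I V hI hIn hV hVn =>
      Pool.Agent.X125.RF.eigen hp hq hpq hD hat h1 h2 hg h3 h4 hI hIn hV hVn, ?_⟩
  intro κ hκ h1 h2 φ hφ h3 h4 hat
  have main : ∀ (I : Set UnitAddCircle) (V : Set K), IsOpen I → I.Nonempty → IsOpen V →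
      V.Nonempty → 0 < κ (φ ⁻¹' I ∩ V) := fun I V hI hIn hV hVn =>
    Pool.Agent.X125.RF.coding hp hq hpq hD h1 h2 hφ hat h3 h4 hI hIn hV hVn
  refine ⟨main, fun ψ hψ k hk => ?_⟩
  have hU : Metric.ball (ψ k) (1 / 4) ∈ 𝓝 (ψ k) := Metric.ball_mem_nhds _ (by norm_num)
  obtain ⟨V, hVs, hV, hkV⟩ := mem_nhds_iff.1 (hk hU)
  have hI : IsOpen (Metric.closedBall (ψ k) (1 / 4))ᶜ := Metric.isClosed_closedBall.isOpen_compl
  have hIn : ((Metric.closedBall (ψ k) (1 / 4))ᶜ : Set UnitAddCircle).Nonempty := by
    refine ⟨ψ k + ((1 / 2 : ℝ) : UnitAddCircle), ?_⟩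
    rw [mem_compl_iff, Metric.mem_closedBall, dist_eq_norm, add_sub_cancel_left, not_le]
    have e : ‖((1 / 2 : ℝ) : UnitAddCircle)‖ = 1 / 2 := by
      have h := (AddCircle.norm_coe_eq_abs_iff (p := (1 : ℝ)) (x := 1 / 2) one_ne_zero).2 (by
        norm_num)
      rw [h]
      norm_num
    rw [e]
    norm_num
  have h5 := main _ V hI hIn hV ⟨k, hkV⟩
  have h6 : κ (φ ⁻¹' (Metric.closedBall (ψ k) (1 / 4))ᶜ ∩ V) = 0 := by
    have h7 : κ {y | ψ y ≠ φ y} = 0 := hψ
    refine measure_mono_null ?_ h7
    rintro y ⟨hy1, hy2⟩ hy3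
    have h8 := hVs hy2
    rw [mem_preimage, hy3] at h8
    exact hy1 (Metric.ball_subset_closedBall h8)
  exact h5.ne' h6

end Pool.Agent.Results.MP_96e181_an.RotationJoinings
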